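import Pool.Agent.H32.Rotor

set_option autoImplicit false

namespace Pool.Agent.Results.MP_366529_co.Flip

open Pool.Agent.H32.Rotor

/-- There is a finite planar graph with a rotor whose flip changes the chromatic polynomial:
the graph has a proper 3-colouring and the flipped graph has none. -/
theorem result : ∃ (V : Type) (_ : Fintype V) (G : SimpleGraph V) (R : G.Subgraph) (n : ℕ)
    (v : ZMod n → V), 0 < n ∧ IsRotor G R n v ∧ 0 < P G 3 ∧ P (flip G R v) 3 = 0 :=
  ⟨W, inferInstance, G, R, 6, vv, by norm_num, rotor, orig_pos, flip_zero⟩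

end Pool.Agent.Results.MP_366529_co.Flip
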